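import Pool.Agent.J4H64.MC.Def

/-! Project MC (helper64), piece BIN (helper98): the dual of a circuit of unbounded fan-in is
computed by a monotone program with gates of fan-in two. -/

set_option autoImplicit false

namespace Pool.Agent.J4H98.MC

open Finset Pool.Agent.H560R2 Pool.Agent.H520R2 Pool.Agent.J4H64.MC

theorem orL {X : Type} {B : Set (X → Bool)} {L : List (X → Bool)} (hL : MProg B L)
    (h0 : (fun _ => false) ∈ B) (gs : List (X → Bool)) (hg : ∀ g ∈ gs, Av B L g) :
    ∃ L', MProg B (L' ++ L) ∧ L'.length ≤ gs.length ∧
      Av B (L' ++ L) (fun x => gs.any (fun g => g x)) := by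
  induction gs with
  | nil => exact ⟨[], by simpa using hL, by simp, Or.inl (by simpa using h0)⟩
  | cons g gs ih =>
    obtain ⟨L', hL', hlen, hav⟩ := ih (fun g' hg' => hg g' (List.mem_cons_of_mem _ hg'))
    have p1 := MProg.or hL' ((hg g List.mem_cons_self).mono L') hav
    refine ⟨_ :: L', p1, by simp only [List.length_cons]; omega, Or.inr ?_⟩
    have : (fun x => (g :: gs).any (fun g => g x)) = (fun x => g x || gs.any (fun g => g x)) := by
      funext x
      simp only [List.any_cons]
    rw [this]
    exact List.mem_cons_self

theorem andL {X : Type} {B : Set (X → Bool)} {L : List (X → Bool)} (hL : MProg B L)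
    (h1 : (fun _ => true) ∈ B) (gs : List (X → Bool)) (hg : ∀ g ∈ gs, Av B L g) :
    ∃ L', MProg B (L' ++ L) ∧ L'.length ≤ gs.length ∧
      Av B (L' ++ L) (fun x => gs.all (fun g => g x)) := by
  induction gs with
  | nil => exact ⟨[], by simpa using hL, by simp, Or.inl (by simpa using h1)⟩
  | cons g gs ih =>
    obtain ⟨L', hL', hlen, hav⟩ := ih (fun g' hg' => hg g' (List.mem_cons_of_mem _ hg'))
    have p1 := MProg.and hL' ((hg g List.mem_cons_self).mono L') hav
    refine ⟨_ :: L', p1, by simp only [List.length_cons]; omega, Or.inr ?_⟩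
    have : (fun x => (g :: gs).all (fun g => g x)) = (fun x => g x && gs.all (fun g => g x)) := by
      funext x
      simp only [List.all_cons]
    rw [this]
    exact List.mem_cons_self

/-- the equation of the gate `j` -/
def Eqn {I : Type} (C : Circ I) (x : I → Bool) (v : Fin C.m → Bool) (j : Fin C.m) : Prop :=
  (C.kind j = true → (v j = true ↔
      ((∀ i ∈ C.predIn j, x i = true) ∧ ∀ k ∈ C.predG j, v k = true))) ∧
    (C.kind j = false → (v j = true ↔
      ((∃ i ∈ C.predIn j, x i = true) ∨ ∃ k ∈ C.predG j, v k = true)))

theorem Eqn.congr {I : Type} (C : Circ I) (x : I → Bool) (v w : Fin C.m → Bool) (j : Fin C.m)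
    (h : ∀ k, k ≤ j → v k = w k) (hv : Eqn C x v j) : Eqn C x w j := by
  have hk : ∀ k ∈ C.predG j, v k = w k := fun k hk => h k (C.acyclic j k hk).le
  have e1 : (∀ k ∈ C.predG j, v k = true) ↔ ∀ k ∈ C.predG j, w k = true :=
    ⟨fun H k hk' => by rw [← hk k hk']; exact H k hk', fun H k hk' => by
      rw [hk k hk']; exact H k hk'⟩
  have e2 : (∃ k ∈ C.predG j, v k = true) ↔ ∃ k ∈ C.predG j, w k = true :=
    ⟨fun ⟨k, hk', H⟩ => ⟨k, hk', by rw [← hk k hk']; exact H⟩, fun ⟨k, hk', H⟩ => ⟨k, hk', by
      rw [hk k hk']; exact H⟩⟩
  refine ⟨fun hj => ?_, fun hj => ?_⟩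
  · rw [← h j le_rfl, ← e1]
    exact hv.1 hj
  · rw [← h j le_rfl, ← e2]
    exact hv.2 hj

/-- two valuations agree -/
theorem uniq {I : Type} (C : Circ I) (x : I → Bool) (v w : Fin C.m → Bool)
    (hv : ∀ j, Eqn C x v j) (hw : ∀ j, Eqn C x w j) : ∀ (N : ℕ) (j : Fin C.m), j.1 < N →
      v j = w j := by
  intro N
  induction N with
  | zero => intro j hj; omega
  | succ N ih =>
    intro j hj
    have hk : ∀ k ∈ C.predG j, v k = w k := by
      intro k hk
      have := C.acyclic j k hk
      exact ih k (by have := Fin.lt_def.mp this; omega)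
    have e1 : (∀ k ∈ C.predG j, v k = true) ↔ ∀ k ∈ C.predG j, w k = true :=
      ⟨fun H k hk' => by rw [← hk k hk']; exact H k hk', fun H k hk' => by
        rw [hk k hk']; exact H k hk'⟩
    have e2 : (∃ k ∈ C.predG j, v k = true) ↔ ∃ k ∈ C.predG j, w k = true :=
      ⟨fun ⟨k, hk', H⟩ => ⟨k, hk', by rw [← hk k hk']; exact H⟩, fun ⟨k, hk', H⟩ => ⟨k, hk', by
        rw [hk k hk']; exact H⟩⟩
    have key : v j = true ↔ w j = true := by
      cases hkd : C.kind j with
      | true => rw [(hv j).1 hkd, (hw j).1 hkd, e1]
      | false => rw [(hv j).2 hkd, (hw j).2 hkd, e2]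
    exact Bool.eq_iff_iff.mpr key

theorem t_BIN : S_BIN := by
  intro I X _ C Bs z g hT hF hz hg
  have main : ∀ N : ℕ, N ≤ C.m → ∃ L : List (X → Bool), MProg Bs L ∧
      L.length ≤ N * (C.m + Fintype.card I + 1) ∧ ∃ V : X → Fin C.m → Bool,
        (∀ j : Fin C.m, j.1 < N → Av Bs L (fun x => ! V x j)) ∧
        ∀ x, ∀ j : Fin C.m, j.1 < N → Eqn C (z x) (V x) j := by
    intro N
    induction N with
    | zero =>
      intro _
      exact ⟨[], MProg.nil, by simp, fun _ _ => false, fun j hj => by omega,
        fun x j hj => by omega⟩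
    | succ N ih =>
      intro hN
      obtain ⟨L, hL, hlen, V, hV, hE⟩ := ih (by omega)
      let j0 : Fin C.m := ⟨N, hN⟩
      let gs : List (X → Bool) := (C.predIn j0).toList.map (fun i => fun x => ! z x i) ++
        (C.predG j0).toList.map (fun k => fun x => ! V x k)
      have hgs : ∀ g ∈ gs, Av Bs L g := by
        intro f hf
        rcases List.mem_append.mp hf with hf | hf
        · obtain ⟨i, _, rfl⟩ := List.mem_map.mp hf
          exact Or.inl (hz i)
        · obtain ⟨k, hk, rfl⟩ := List.mem_map.mp hf
          have := C.acyclic j0 k (Finset.mem_toList.mp hk)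
          exact hV k (Fin.lt_def.mp this)
      have hgl : gs.length ≤ C.m + Fintype.card I := by
        have h1 : (C.predIn j0).card ≤ Fintype.card I := Finset.card_le_univ _
        have h2 : (C.predG j0).card ≤ C.m := by
          simpa using Finset.card_le_univ (C.predG j0)
        simp only [gs, List.length_append, List.length_map, Finset.length_toList]
        omega
      -- the new function
      have step : ∃ L', MProg Bs (L' ++ L) ∧ L'.length ≤ gs.length ∧ ∃ W : X → Bool,
          Av Bs (L' ++ L) (fun x => ! W x) ∧ ∀ x,
          ((C.kind j0 = true → (W x = true ↔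
            ((∀ i ∈ C.predIn j0, z x i = true) ∧ ∀ k ∈ C.predG j0, V x k = true))) ∧
          (C.kind j0 = false → (W x = true ↔
            ((∃ i ∈ C.predIn j0, z x i = true) ∨ ∃ k ∈ C.predG j0, V x k = true)))) := by
        cases hkd : C.kind j0 with
        | true =>
          obtain ⟨L', hL', hlen', hav⟩ := orL hL hF gs hgs
          refine ⟨L', hL', hlen', fun x => ! gs.any (fun g => g x), by simpa using hav, ?_⟩
          intro x
          refine ⟨fun _ => ?_, fun h => absurd h (by decide)⟩
          simp only [gs, Bool.not_eq_true', List.any_append, List.any_map, Bool.or_eq_false_iff,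
            List.any_eq_false, Finset.mem_toList, Function.comp_apply, Bool.not_eq_false]
        | false =>
          obtain ⟨L', hL', hlen', hav⟩ := andL hL hT gs hgs
          refine ⟨L', hL', hlen', fun x => ! gs.all (fun g => g x), by simpa using hav, ?_⟩
          intro x
          refine ⟨fun h => absurd h (by decide), fun _ => ?_⟩
          simp only [gs, Bool.not_eq_true', List.all_append, List.all_map, Bool.and_eq_false_iff,
            List.all_eq_false, Finset.mem_toList, Function.comp_apply,
            Bool.not_eq_false]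
      obtain ⟨L', hL', hlen', W, hW, hWe⟩ := step
      refine ⟨L' ++ L, hL', ?_, fun x => Function.update (V x) j0 (W x), ?_, ?_⟩
      · rw [List.length_append, Nat.succ_mul]
        omega
      · intro j hj
        by_cases hjj : j = j0
        · subst hjj
          simpa using hW
        · have h1 : j.1 < N := by
            have : j.1 ≠ N := fun h => hjj (Fin.ext h)
            omega
          have h2 := (hV j h1).mono L'
          simpa [Function.update_of_ne hjj] using h2
      · intro x j hj
        have hupd : ∀ k : Fin C.m, k.1 < N → Function.update (V x) j0 (W x) k = V x k := by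
          intro k hk
          exact Function.update_of_ne (fun h => by
            have := congrArg Fin.val h
            simp only [j0] at this
            omega) _ _
        by_cases hjj : j = j0
        · subst hjj
          have hpg : ∀ k ∈ C.predG j0, Function.update (V x) j0 (W x) k = V x k := by
            intro k hk
            exact hupd k (Fin.lt_def.mp (C.acyclic j0 k hk))
          have e1 : (∀ k ∈ C.predG j0, Function.update (V x) j0 (W x) k = true) ↔
              ∀ k ∈ C.predG j0, V x k = true :=
            ⟨fun H k hk' => by rw [← hpg k hk']; exact H k hk', fun H k hk' => by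
              rw [hpg k hk']; exact H k hk'⟩
          have e2 : (∃ k ∈ C.predG j0, Function.update (V x) j0 (W x) k = true) ↔
              ∃ k ∈ C.predG j0, V x k = true :=
            ⟨fun ⟨k, hk', H⟩ => ⟨k, hk', by rw [← hpg k hk']; exact H⟩,
              fun ⟨k, hk', H⟩ => ⟨k, hk', by rw [hpg k hk']; exact H⟩⟩
          refine ⟨fun h => ?_, fun h => ?_⟩
          · show (Function.update (V x) j0 (W x) j0 = true ↔ _)
            rw [Function.update_self, e1]
            exact (hWe x).1 h
          · show (Function.update (V x) j0 (W x) j0 = true ↔ _)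
            rw [Function.update_self, e2]
            exact (hWe x).2 h
        · have h1 : j.1 < N := by
            have : j.1 ≠ N := fun h => hjj (Fin.ext h)
            omega
          refine Eqn.congr C (z x) (V x) _ j (fun k hk => ?_) (hE x j h1)
          exact (hupd k (by have := Fin.le_def.mp hk; omega)).symm
  obtain ⟨L, hL, hlen, V, hV, hE⟩ := main C.m le_rfl
  have hgV : g = fun x => ! V x C.o := by
    funext x
    have hval : C.Val (z x) (V x) := fun j => hE x j j.2
    have hacc : C.Acc (z x) ↔ V x C.o = true := by
      constructor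
      · rintro ⟨v, hv, ho⟩
        have := uniq C (z x) v (V x) (fun j => hv j) (fun j => hE x j j.2) C.m C.o C.o.2
        rw [← this]
        exact ho
      · intro h
        exact ⟨V x, hval, h⟩
    have h1 := hg x
    rw [hacc] at h1
    rw [Bool.eq_iff_iff, h1]
    simp
  refine ⟨L, hL, hlen, ?_⟩
  rw [hgV]
  exact hV C.o C.o.2

end Pool.Agent.J4H98.MC
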