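import Pool.Agent.J4H64.MC.Def

/-! Project MC (helper64), piece ASM (helper98): choice of the parameters. -/

set_option autoImplicit false

namespace Pool.Agent.J4H98.MC

open Finset Pool.Agent.H560R2 Pool.Agent.H520R2 Pool.Agent.J4H64.MC

theorem t_ASM : S_ASM := by
  intro hRows hLow hBin hEnc k μ n e hk hμ he hsz hn C hC
  obtain ⟨A, hA⟩ : ∃ A, A = k * μ := ⟨_, rfl⟩
  obtain ⟨M, hM⟩ : ∃ M, M = 2 ^ (k * μ) := ⟨_, rfl⟩
  rw [← hM, ← hA] at hsz
  rw [← hM, ← hA] at hn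
  have hA1 : 3 ≤ A := by rw [hA]; nlinarith
  have hAM : A < M := by rw [hM, ← hA]; exact Nat.lt_two_pow_self
  have h64 : 64 * (A ^ 2 * e) + 1 ≤ M := by nlinarith [Nat.zero_le (A ^ 2 * e)]
  -- the rows
  have hρ : 4 * Fintype.card (Fin M × Fin k × Fin μ) ≤ 2 ^ (2 * A + 2) := by
    have h1 : Fintype.card (Fin M × Fin k × Fin μ) = M * A := by
      simp [hA]
    rw [h1]
    have h2 : (2 : ℕ) ^ (2 * A + 2) = 4 * (M * M) := by
      rw [hM, ← hA]
      ring
    rw [h2]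
    exact Nat.mul_le_mul_left _ (Nat.mul_le_mul_left _ hAM.le)
  obtain ⟨R, hR⟩ := hRows (Fin M × Fin k × Fin μ) (2 * A + 2) (M - 1) (by omega) hρ
  -- the formula
  obtain ⟨z, hz1, hz2⟩ := hEnc k μ M (2 * A + 2) (M - 1) n R hk (by
    rw [← hA]
    have h1 : 2 * A + 2 + 1 = 2 * A + 3 := rfl
    rw [h1]
    omega)
  -- the base functions
  let Bs : Set (Set (Pnt k μ M) → Bool) :=
    {b | ∃ T : Finset (Pnt k μ M), T.card ≤ e ∧ LeafOn T (fun x => b x = true)}
  classical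
  let g : Set (Pnt k μ M) → Bool := fun x => decide (Has R x)
  have hg : ∀ x, g x = true ↔ Has R x := by
    intro x
    simp only [g, decide_eq_true_eq]
  have hcomp : MComp Bs (C.m * (C.m + Fintype.card (Clause n k) + 1)) g := by
    refine hBin (Clause n k) (Set (Pnt k μ M)) C Bs z g ?_ ?_ ?_ ?_
    · exact ⟨∅, by simp, fun _ _ _ h => h⟩
    · exact ⟨∅, by simp, fun _ _ _ h => h⟩
    · intro c
      obtain ⟨T, hT, hL⟩ := hz1 c
      exact ⟨T, hT.trans he, hL⟩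
    · intro x
      rw [hg x, hC (z x), not_not]
      exact (hz2 x).symm
  have hm : 1 ≤ C.m := by
    have := C.o.2
    omega
  have hs : 1 ≤ C.m * (C.m + Fintype.card (Clause n k) + 1) := Nat.one_le_iff_ne_zero.mpr
    (Nat.mul_ne_zero (by omega) (by omega))
  refine hLow k μ M (2 * A + 2) (M - 1) e (2 * A + 1) R hR he (by omega) hμ (by omega) (by omega)
    ?_ ?_ ?_ Bs (fun b hb => hb) _ g hs hcomp hg
  · -- 16 t k μ e ≤ K
    rw [← hA]
    have h1 : 16 * ((2 * A + 2) * (A * e)) ≤ 64 * (A ^ 2 * e) := by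
      have h2 : 2 * A + 2 ≤ 4 * A := by omega
      calc 16 * ((2 * A + 2) * (A * e)) ≤ 16 * ((4 * A) * (A * e)) :=
            Nat.mul_le_mul_left _ (Nat.mul_le_mul_right _ h2)
        _ = 64 * (A ^ 2 * e) := by ring
    omega
  · rw [← hM]
    have h1 : (2 : ℕ) ^ (2 * A + 1) = 2 * (M * M) := by
      rw [hM, ← hA]
      ring
    rw [h1]
    have h2 : 1 ≤ M * M := Nat.one_le_iff_ne_zero.mpr (Nat.mul_ne_zero (by omega) (by omega))
    omega
  · rw [← hM]
    have h1 : 512 * (2 * A + 1 + 1) * (2 * A + 1) * e ≤ 8192 * A ^ 2 * e := by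
      have h2 : 2 * A + 1 + 1 ≤ 4 * A := by omega
      have h3 : 2 * A + 1 ≤ 4 * A := by omega
      calc 512 * (2 * A + 1 + 1) * (2 * A + 1) * e ≤ 512 * (4 * A) * (4 * A) * e :=
            Nat.mul_le_mul_right _ (Nat.mul_le_mul (Nat.mul_le_mul_left _ h2) h3)
        _ = 8192 * A ^ 2 * e := by ring
    omega

end Pool.Agent.J4H98.MC
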